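import Mathlib
import Pool.Agent.Helper5.ETA.Fourier

set_option autoImplicit false

/-!
E-T (MP_12a1af_nt), affirmative side: the ideal of thin sets.
-/

namespace Pool.Agent.Helper3.ETP3

open Finset Filter
open Pool.Agent.Helper5.ETA (S G ex mass energy coll_ge sum_G card_G_le G_mono)

/-- `rep A n` is the number of ordered pairs `(a, b)` in `A × A` with `a + b = n`. -/
noncomputable def rep (A : Set ℕ) (n : ℕ) : ℕ :=
  ({q : ℕ × ℕ | q.1 ∈ A ∧ q.2 ∈ A ∧ q.1 + q.2 = n} : Set (ℕ × ℕ)).ncard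

/-- `rep A` is bounded -/
def Bdd (A : Set ℕ) : Prop := ∃ R : ℕ, ∀ n, rep A n ≤ R

/-- `|A ∩ [0, x)| = o(√x)` -/
def Small (A : Set ℕ) : Prop :=
  ∀ κ : ℝ, 0 < κ → ∀ᶠ x : ℕ in atTop, ((A ∩ Set.Iio x).ncard : ℝ) ≤ κ * √(x : ℝ)

/-- every subset of `D` with bounded `rep` is small -/
def Thin (D : Set ℕ) : Prop := ∀ A : Set ℕ, A ⊆ D → Bdd A → Small A

theorem rep_finite (A : Set ℕ) (n : ℕ) :
    ({q : ℕ × ℕ | q.1 ∈ A ∧ q.2 ∈ A ∧ q.1 + q.2 = n} : Set (ℕ × ℕ)).Finite := by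
  refine ((Set.finite_Iic n).prod (Set.finite_Iic n)).subset ?_
  intro q hq
  have h := hq.2.2
  exact ⟨by simp only [Set.mem_Iic]; omega, by simp only [Set.mem_Iic]; omega⟩

theorem rep_mono {A B : Set ℕ} (h : A ⊆ B) (n : ℕ) : rep A n ≤ rep B n :=
  Set.ncard_le_ncard (fun _ hq => ⟨h hq.1, h hq.2.1, hq.2.2⟩) (rep_finite B n)

theorem Bdd.mono {A B : Set ℕ} (h : A ⊆ B) (hB : Bdd B) : Bdd A := by
  obtain ⟨R, hR⟩ := hB
  exact ⟨R, fun n => (rep_mono h n).trans (hR n)⟩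

theorem fin_Iio (A : Set ℕ) (x : ℕ) : (A ∩ Set.Iio x).Finite :=
  (Set.finite_Iio x).subset Set.inter_subset_right

theorem count_mono {A B : Set ℕ} (h : A ⊆ B) (x : ℕ) :
    (A ∩ Set.Iio x).ncard ≤ (B ∩ Set.Iio x).ncard :=
  Set.ncard_le_ncard (Set.inter_subset_inter_left _ h) (fin_Iio B x)

theorem Small.mono {A B : Set ℕ} (h : A ⊆ B) (hB : Small B) : Small A := by
  intro κ hκ
  filter_upwards [hB κ hκ] with x hx
  exact le_trans (by exact_mod_cast count_mono h x) hx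

theorem Thin.mono {D E : Set ℕ} (h : D ⊆ E) (hE : Thin E) : Thin D :=
  fun A hA hb => hE A (hA.trans h) hb

theorem small_empty : Small ∅ := by
  intro κ hκ
  refine Eventually.of_forall (fun x => ?_)
  simp only [Set.empty_inter, Set.ncard_empty, Nat.cast_zero]
  positivity

theorem Small.union {A B : Set ℕ} (hA : Small A) (hB : Small B) : Small (A ∪ B) := by
  intro κ hκ
  filter_upwards [hA (κ / 2) (by positivity), hB (κ / 2) (by positivity)] with x h1 h2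
  have h3 : ((A ∪ B) ∩ Set.Iio x).ncard ≤ (A ∩ Set.Iio x).ncard + (B ∩ Set.Iio x).ncard := by
    rw [Set.union_inter_distrib_right]
    exact Set.ncard_union_le _ _
  have h4 : (((A ∪ B) ∩ Set.Iio x).ncard : ℝ)
      ≤ ((A ∩ Set.Iio x).ncard : ℝ) + ((B ∩ Set.Iio x).ncard : ℝ) := by exact_mod_cast h3
  linarith

theorem small_biUnion {ι : Type*} (s : Finset ι) (A : ι → Set ℕ) (h : ∀ i ∈ s, Small (A i)) :
    Small (⋃ i ∈ s, A i) := by
  classical
  induction s using Finset.induction_on with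
  | empty => simpa using small_empty
  | insert a s ha ih =>
    have h1 := h a (mem_insert_self a s)
    have h2 := ih (fun i hi => h i (mem_insert_of_mem hi))
    rw [Finset.set_biUnion_insert]
    exact h1.union h2

theorem thin_biUnion {ι : Type*} (s : Finset ι) (D : ι → Set ℕ) (h : ∀ i ∈ s, Thin (D i)) :
    Thin (⋃ i ∈ s, D i) := by
  intro A hA hb
  have h1 : A ⊆ ⋃ i ∈ s, (A ∩ D i) := by
    intro a ha
    have h2 := hA ha
    rw [Set.mem_iUnion₂] at h2 ⊢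
    obtain ⟨i, hi, h3⟩ := h2
    exact ⟨i, hi, ha, h3⟩
  refine Small.mono h1 (small_biUnion s _ (fun i hi => ?_))
  exact h i hi _ Set.inter_subset_right (hb.mono Set.inter_subset_left)

/-! ### The spectral criterion -/

/-- the exponential sum of a finite set at a rational frequency -/
noncomputable def e (B : Finset ℕ) (α : ℚ) : ℝ := ‖S B (fun a => a) α‖

theorem e_nonneg (B : Finset ℕ) (α : ℚ) : 0 ≤ e B α := norm_nonneg _

theorem norm_ex (t : ℝ) : ‖ex t‖ = 1 := by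
  unfold ex
  have h : (2 * Real.pi * t * Complex.I : ℂ) = ((2 * Real.pi * t : ℝ) : ℂ) * Complex.I := by
    push_cast
    ring
  rw [h, Complex.norm_exp_ofReal_mul_I]

theorem e_le (B : Finset ℕ) (α : ℚ) : e B α ≤ B.card := by
  unfold e S
  refine (norm_sum_le _ _).trans ?_
  simp [norm_ex]

/-- the energy of `B` at the frequencies `i / M` -/
noncomputable def en (B : Finset ℕ) (M : ℕ) : ℝ := ∑ α ∈ G M, e B α ^ 4

theorem en_nonneg (B : Finset ℕ) (M : ℕ) : 0 ≤ en B M :=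
  Finset.sum_nonneg (fun α _ => by have := e_nonneg B α; positivity)

theorem mass_ge (B : Finset ℕ) {q d : ℕ} (hq : 0 < q)
    (hd : (B.image (fun a => a % q)).card ≤ d) :
    (q : ℝ) * (B.card : ℝ) ^ 2 ≤ d * ∑ α ∈ G q, e B α ^ 2 := by
  have h1 := coll_ge B q
  have h2 := mass hq B (fun a => a)
  have h3 : ∑ α ∈ G q, e B α ^ 2 = ∑ i ∈ range q, e B ((i : ℚ) / q) ^ 2 :=
    sum_G hq (fun α => e B α ^ 2)
  have h4 : ∑ i ∈ range q, e B ((i : ℚ) / q) ^ 2
      = q * (((B ×ˢ B).filter (fun p => p.1 % q = p.2 % q)).card : ℝ) := h2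
  rw [h3, h4]
  have h5 : ((B.image (fun a => a % q)).card : ℝ) ≤ d := by exact_mod_cast hd
  calc (q : ℝ) * (B.card : ℝ) ^ 2
      ≤ q * (((B.image (fun a => a % q)).card : ℝ) *
        (((B ×ˢ B).filter (fun p => p.1 % q = p.2 % q)).card : ℝ)) := by gcongr
    _ ≤ q * ((d : ℝ) * (((B ×ˢ B).filter (fun p => p.1 % q = p.2 % q)).card : ℝ)) := by gcongr
    _ = _ := by ring

/-- Cauchy-Schwarz on a set of frequencies -/
theorem cs (B : Finset ℕ) (T : Finset ℚ) {Q : ℝ} (hT : (T.card : ℝ) ≤ Q) :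
    (∑ α ∈ T, e B α ^ 2) ^ 2 ≤ Q * ∑ α ∈ T, e B α ^ 4 := by
  have h1 := sq_sum_le_card_mul_sum_sq (s := T) (f := fun α => e B α ^ 2)
  have h2 : ∑ α ∈ T, (e B α ^ 2) ^ 2 = ∑ α ∈ T, e B α ^ 4 :=
    Finset.sum_congr rfl (fun α _ => by ring)
  rw [h2] at h1
  have h3 : 0 ≤ ∑ α ∈ T, e B α ^ 4 :=
    Finset.sum_nonneg (fun α _ => by have := e_nonneg B α; positivity)
  exact h1.trans (mul_le_mul_of_nonneg_right hT h3)

/-- the finite set `A ∩ [0, x)` -/
noncomputable def cut (A : Set ℕ) (x : ℕ) : Finset ℕ := (fin_Iio A x).toFinset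

theorem mem_cut {A : Set ℕ} {x a : ℕ} : a ∈ cut A x ↔ a ∈ A ∧ a < x := by
  unfold cut
  rw [Set.Finite.mem_toFinset]
  rfl

theorem card_cut (A : Set ℕ) (x : ℕ) : (cut A x).card = (A ∩ Set.Iio x).ncard := by
  unfold cut
  rw [Set.ncard_eq_toFinset_card _ (fin_Iio A x)]

theorem cut_rep {A : Set ℕ} {R : ℕ} (hR : ∀ n, rep A n ≤ R) (x n : ℕ) :
    ((cut A x ×ˢ cut A x).filter (fun p => p.1 + p.2 = n)).card ≤ R := by
  refine le_trans ?_ (hR n)
  unfold rep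
  rw [← Set.ncard_coe_finset]
  refine Set.ncard_le_ncard ?_ (rep_finite A n)
  intro p hp
  rw [mem_coe, mem_filter, mem_product, mem_cut, mem_cut] at hp
  exact ⟨hp.1.1.1, hp.1.2.1, hp.2⟩

/-- **Spectral criterion**: if the normalised energy of the finite subsets of `D` at rational
frequencies is unbounded, then `D` is thin. -/
theorem thin_of_energy {D : Set ℕ} (h : ∀ T : ℝ, ∃ M : ℕ, 0 < M ∧
    ∀ B : Finset ℕ, (B : Set ℕ) ⊆ D → T * (B.card : ℝ) ^ 4 ≤ en B M) : Thin D := by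
  intro A hA hb κ hκ
  obtain ⟨R, hR⟩ := hb
  obtain ⟨M, hM, hE⟩ := h (3 * R / κ ^ 2 + 1)
  filter_upwards [eventually_ge_atTop M, eventually_gt_atTop 0] with x hx hx0
  by_contra hcon
  rw [not_le] at hcon
  have hBD : ((cut A x : Finset ℕ) : Set ℕ) ⊆ D := fun a ha => hA (mem_cut.1 ha).1
  have h1 := hE _ hBD
  have h2 : en (cut A x) M ≤ 3 * R * x * ((cut A x).card : ℝ) ^ 2 :=
    energy (fun a ha => (mem_cut.1 ha).2) hM hx (cut_rep hR x)
  rw [← card_cut] at hcon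
  set N : ℝ := ((cut A x).card : ℝ) with hN
  have hx1 : (0 : ℝ) < x := by exact_mod_cast hx0
  have hsx : 0 < √(x : ℝ) := Real.sqrt_pos.2 hx1
  have hNpos : 0 < N := lt_trans (by positivity) hcon
  have h3 : κ ^ 2 * x < N ^ 2 := by
    have : κ ^ 2 * x = (κ * √(x : ℝ)) ^ 2 := by rw [mul_pow, Real.sq_sqrt hx1.le]
    rw [this]
    exact pow_lt_pow_left₀ hcon (by positivity) (by norm_num)
  have h4 : (3 * R / κ ^ 2 + 1) * N ^ 4 ≤ 3 * R * x * N ^ 2 := h1.trans h2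
  have h5 : (3 : ℝ) * R * x * N ^ 2 ≤ 3 * R / κ ^ 2 * N ^ 4 := by
    have h6 : (3 : ℝ) * R * x * N ^ 2 = 3 * R / κ ^ 2 * (κ ^ 2 * x) * N ^ 2 := by
      field_simp
    rw [h6]
    have h7 : 3 * R / κ ^ 2 * N ^ 4 = 3 * R / κ ^ 2 * N ^ 2 * N ^ 2 := by ring
    rw [h7]
    gcongr
  have h8 : 0 < N ^ 4 := by positivity
  nlinarith

end Pool.Agent.Helper3.ETP3
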