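import Mathlib
import Pool.Agent.Helper3.ETP3.Basic

set_option autoImplicit false

/-!
E-T (MP_12a1af_nt), affirmative side: sets with few small differences (Erdős's argument).
-/

namespace Pool.Agent.Helper3.ETP3

open Finset Filter

/-- the number of pairs of elements of `D` below `N²` at distance less than `N` -/
noncomputable def close (D : Set ℕ) (N : ℕ) : ℕ :=
  ({q : ℕ × ℕ | q.1 ∈ D ∧ q.2 ∈ D ∧ q.1 < q.2 ∧ q.2 < N ^ 2 ∧ q.2 < q.1 + N} :
    Set (ℕ × ℕ)).ncard

/-- `o(N log N)` pairs of elements of `D` below `N²` have distance less than `N` -/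
def FewDiff (D : Set ℕ) : Prop :=
  ∀ ε : ℝ, 0 < ε → ∀ᶠ N : ℕ in atTop, (close D N : ℝ) ≤ ε * (N * Real.log N)

/-- the elements of `D` in the `i`-th interval of length `N` -/
noncomputable def win (D : Set ℕ) (N i : ℕ) : Finset ℕ :=
  (cut D (N ^ 2)).filter (fun a => a / N = i)

/-- the second moment over the intervals -/
noncomputable def mom (D : Set ℕ) (N : ℕ) : ℕ := ∑ i ∈ range N, (win D N i).card ^ 2

/-- interval form -/
def FewInt (D : Set ℕ) : Prop :=
  ∀ ε : ℝ, 0 < ε → ∀ᶠ N : ℕ in atTop, (mom D N : ℝ) ≤ ε * (N * Real.log N)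

theorem win_mono {D E : Set ℕ} (h : D ⊆ E) (N i : ℕ) : win D N i ⊆ win E N i := by
  intro a ha
  unfold win at ha ⊢
  rw [mem_filter, mem_cut] at ha ⊢
  exact ⟨⟨h ha.1.1, ha.1.2⟩, ha.2⟩

theorem mom_mono {D E : Set ℕ} (h : D ⊆ E) (N : ℕ) : mom D N ≤ mom E N :=
  Finset.sum_le_sum (fun i _ => Nat.pow_le_pow_left (card_le_card (win_mono h N i)) 2)

theorem FewInt.mono {D E : Set ℕ} (h : D ⊆ E) (hE : FewInt E) : FewInt D := by
  intro ε hε
  filter_upwards [hE ε hε] with N hN
  exact le_trans (by exact_mod_cast mom_mono h N) hN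

theorem fewInt_empty : FewInt ∅ := by
  intro ε hε
  filter_upwards [eventually_ge_atTop 1] with N hN
  have h1 : ∀ i, win ∅ N i = ∅ := by
    intro i
    rw [eq_empty_iff_forall_notMem]
    intro a ha
    unfold win at ha
    rw [mem_filter, mem_cut] at ha
    exact ha.1.1
  have h2 : mom ∅ N = 0 := by
    unfold mom
    simp [h1]
  rw [h2, Nat.cast_zero]
  have h3 : 0 ≤ Real.log N := Real.log_nonneg (by exact_mod_cast hN)
  positivity

theorem mom_union (D E : Set ℕ) (N : ℕ) : mom (D ∪ E) N ≤ 2 * mom D N + 2 * mom E N := by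
  classical
  have h1 : ∀ i, (win (D ∪ E) N i).card ^ 2 ≤ 2 * (win D N i).card ^ 2 + 2 * (win E N i).card ^ 2 := by
    intro i
    have h2 : win (D ∪ E) N i ⊆ win D N i ∪ win E N i := by
      intro a ha
      unfold win at ha ⊢
      rw [mem_filter, mem_cut] at ha
      rw [mem_union, mem_filter, mem_filter, mem_cut, mem_cut]
      rcases ha.1.1 with h3 | h3
      · exact Or.inl ⟨⟨h3, ha.1.2⟩, ha.2⟩
      · exact Or.inr ⟨⟨h3, ha.1.2⟩, ha.2⟩
    have h3 : (win (D ∪ E) N i).card ≤ (win D N i).card + (win E N i).card :=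
      (card_le_card h2).trans (card_union_le _ _)
    have h4 := Nat.pow_le_pow_left h3 2
    have h5 := sq_nonneg (((win D N i).card : ℤ) - (win E N i).card)
    have h6 : (((win D N i).card : ℤ) + (win E N i).card) ^ 2
        ≤ 2 * ((win D N i).card : ℤ) ^ 2 + 2 * ((win E N i).card : ℤ) ^ 2 := by nlinarith
    have h7 : ((win D N i).card + (win E N i).card) ^ 2
        ≤ 2 * (win D N i).card ^ 2 + 2 * (win E N i).card ^ 2 := by exact_mod_cast h6
    exact h4.trans h7
  unfold mom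
  calc ∑ i ∈ range N, (win (D ∪ E) N i).card ^ 2
      ≤ ∑ i ∈ range N, (2 * (win D N i).card ^ 2 + 2 * (win E N i).card ^ 2) :=
        Finset.sum_le_sum (fun i _ => h1 i)
    _ = 2 * ∑ i ∈ range N, (win D N i).card ^ 2 + 2 * ∑ i ∈ range N, (win E N i).card ^ 2 := by
        rw [Finset.sum_add_distrib, Finset.mul_sum, Finset.mul_sum]

theorem FewInt.union {D E : Set ℕ} (hD : FewInt D) (hE : FewInt E) : FewInt (D ∪ E) := by
  intro ε hε
  filter_upwards [hD (ε / 4) (by positivity), hE (ε / 4) (by positivity)] with N h1 h2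
  have h3 : (mom (D ∪ E) N : ℝ) ≤ 2 * mom D N + 2 * mom E N := by
    exact_mod_cast mom_union D E N
  linarith

theorem fewInt_biUnion {ι : Type*} (s : Finset ι) (D : ι → Set ℕ) (h : ∀ i ∈ s, FewInt (D i)) :
    FewInt (⋃ i ∈ s, D i) := by
  classical
  induction s using Finset.induction_on with
  | empty => simpa using fewInt_empty
  | insert a s ha ih =>
    rw [Finset.set_biUnion_insert]
    exact (h a (mem_insert_self a s)).union (ih (fun i hi => h i (mem_insert_of_mem hi)))

/-- the off-diagonal pairs of a finite set -/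
theorem card_lt_pairs (W : Finset ℕ) :
    W.card ^ 2 ≤ 4 * ((W ×ˢ W).filter (fun p => p.1 < p.2)).card + 1 := by
  classical
  have h1 : W.card ^ 2 = W.card + 2 * ((W ×ˢ W).filter (fun p => p.1 < p.2)).card := by
    have h2 : (W ×ˢ W).card = ((W ×ˢ W).filter (fun p => p.1 = p.2)).card
        + (((W ×ˢ W).filter (fun p => p.1 < p.2)).card
        + ((W ×ˢ W).filter (fun p => p.2 < p.1)).card) := by
      rw [← card_union_of_disjoint, ← card_union_of_disjoint]
      · congr 1
        ext p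
        simp only [mem_union, mem_filter, mem_product]
        constructor
        · intro h
          rcases lt_trichotomy p.1 p.2 with h3 | h3 | h3
          · exact Or.inr (Or.inl ⟨h, h3⟩)
          · exact Or.inl ⟨h, h3⟩
          · exact Or.inr (Or.inr ⟨h, h3⟩)
        · rintro (h | h | h) <;> exact h.1
      · rw [Finset.disjoint_left]
        intro p hp hp'
        rw [mem_filter] at hp
        rw [mem_union, mem_filter, mem_filter] at hp'
        rcases hp' with h | h
        · exact absurd hp.2 h.2.ne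
        · exact absurd hp.2 h.2.ne'
      · rw [Finset.disjoint_left]
        intro p hp hp'
        rw [mem_filter] at hp hp'
        exact absurd hp.2 (not_lt.2 hp'.2.le)
    have h3 : ((W ×ˢ W).filter (fun p => p.1 = p.2)).card = W.card := by
      refine (card_bij (fun a _ => (a, a)) ?_ ?_ ?_).symm
      · intro a ha
        rw [mem_filter, mem_product]
        exact ⟨⟨ha, ha⟩, rfl⟩
      · intro a _ b _ hab
        exact (Prod.mk.inj hab).1
      · rintro ⟨a, b⟩ hp
        rw [mem_filter, mem_product] at hp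
        obtain ⟨⟨h4, _⟩, h5⟩ := hp
        simp only at h5
        subst h5
        exact ⟨a, h4, rfl⟩
    have h4 : ((W ×ˢ W).filter (fun p => p.2 < p.1)).card
        = ((W ×ˢ W).filter (fun p => p.1 < p.2)).card := by
      refine card_bij (fun p _ => (p.2, p.1)) ?_ ?_ ?_
      · intro p hp
        rw [mem_filter, mem_product] at hp ⊢
        exact ⟨⟨hp.1.2, hp.1.1⟩, hp.2⟩
      · intro p _ p' _ h
        exact Prod.ext (Prod.mk.inj h).2 (Prod.mk.inj h).1
      · intro p hp
        rw [mem_filter, mem_product] at hp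
        exact ⟨(p.2, p.1), by rw [mem_filter, mem_product]; exact ⟨⟨hp.1.2, hp.1.1⟩, hp.2⟩, rfl⟩
    rw [card_product] at h2
    rw [sq]
    omega
  rcases Nat.lt_or_ge W.card 2 with h2 | h2
  · interval_cases h : W.card <;> omega
  · nlinarith

theorem close_finite (D : Set ℕ) (N : ℕ) :
    ({q : ℕ × ℕ | q.1 ∈ D ∧ q.2 ∈ D ∧ q.1 < q.2 ∧ q.2 < N ^ 2 ∧ q.2 < q.1 + N} :
      Set (ℕ × ℕ)).Finite := by
  refine ((Set.finite_Iio (N ^ 2)).prod (Set.finite_Iio (N ^ 2))).subset ?_
  intro p hp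
  exact ⟨lt_trans hp.2.2.1 hp.2.2.2.1, hp.2.2.2.1⟩

theorem mom_le_close (D : Set ℕ) (N : ℕ) : mom D N ≤ 4 * close D N + N := by
  classical
  have h1 : ∑ i ∈ range N, (win D N i).card ^ 2
      ≤ ∑ i ∈ range N, (4 * ((win D N i ×ˢ win D N i).filter (fun p => p.1 < p.2)).card + 1) :=
    Finset.sum_le_sum (fun i _ => card_lt_pairs _)
  have h2 : ∑ i ∈ range N, ((win D N i ×ˢ win D N i).filter (fun p => p.1 < p.2)).card
      ≤ close D N := by
    unfold close
    rw [← card_biUnion]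
    · rw [← Set.ncard_coe_finset]
      refine Set.ncard_le_ncard ?_ (close_finite D N)
      intro p hp
      rw [mem_coe, mem_biUnion] at hp
      obtain ⟨i, _, hp⟩ := hp
      rw [mem_filter, mem_product] at hp
      unfold win at hp
      rw [mem_filter, mem_filter, mem_cut, mem_cut] at hp
      obtain ⟨⟨⟨⟨h3, h4⟩, h5⟩, ⟨h6, h7⟩, h8⟩, h9⟩ := hp
      refine ⟨h3, h6, h9, h7, ?_⟩
      have h10 : 0 < N := by
        rcases Nat.eq_zero_or_pos N with h0 | h0
        · rw [h0] at h7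
          simp at h7
        · exact h0
      have h11 := Nat.lt_div_mul_add h10 (a := p.2)
      have h12 := Nat.div_mul_le_self p.1 N
      rw [h8] at h11
      rw [h5] at h12
      omega
    · intro i _ j _ hij
      rw [Function.onFun, Finset.disjoint_left]
      intro p hp hp'
      rw [mem_filter, mem_product] at hp hp'
      have h3 := hp.1.1
      have h4 := hp'.1.1
      unfold win at h3 h4
      rw [mem_filter] at h3 h4
      exact hij (h3.2.symm.trans h4.2)
  unfold mom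
  calc ∑ i ∈ range N, (win D N i).card ^ 2
      ≤ ∑ i ∈ range N, (4 * ((win D N i ×ˢ win D N i).filter (fun p => p.1 < p.2)).card + 1) := h1
    _ = 4 * ∑ i ∈ range N, ((win D N i ×ˢ win D N i).filter (fun p => p.1 < p.2)).card + N := by
        rw [Finset.sum_add_distrib, Finset.mul_sum, Finset.sum_const, card_range, smul_eq_mul,
          mul_one]
    _ ≤ 4 * close D N + N := by omega

theorem linear_small {C ε : ℝ} (hε : 0 < ε) :
    ∀ᶠ N : ℕ in atTop, C * (N : ℝ) ≤ ε * (N * Real.log N) := by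
  have h1 : Tendsto (fun N : ℕ => Real.log (N : ℝ)) atTop atTop :=
    Real.tendsto_log_atTop.comp tendsto_natCast_atTop_atTop
  filter_upwards [h1.eventually_ge_atTop (C / ε)] with N hN
  rw [div_le_iff₀ hε] at hN
  have h2 : (0 : ℝ) ≤ N := by positivity
  nlinarith

theorem FewDiff.fewInt {D : Set ℕ} (h : FewDiff D) : FewInt D := by
  intro ε hε
  filter_upwards [h (ε / 8) (by positivity), linear_small (C := 1) (ε := ε / 2) (by positivity)]
    with N h1 h2
  have h3 : (mom D N : ℝ) ≤ 4 * close D N + N := by exact_mod_cast mom_le_close D N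
  linarith

/-- linearly many small differences are few -/
theorem fewDiff_of_linear {D : Set ℕ} (h : ∃ C : ℝ, ∀ᶠ N : ℕ in atTop, (close D N : ℝ) ≤ C * N) :
    FewDiff D := by
  obtain ⟨C, hC⟩ := h
  intro ε hε
  filter_upwards [hC, linear_small (C := C) hε] with N h1 h2
  exact h1.trans h2

/-- every Sidon set has few small differences -/
theorem fewDiff_of_sidon {D : Set ℕ}
    (h : ∀ a ∈ D, ∀ b ∈ D, ∀ c ∈ D, ∀ d ∈ D, a + b = c + d → (a = c ∧ b = d) ∨ (a = d ∧ b = c)) :
    FewDiff D := by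
  classical
  refine fewDiff_of_linear ⟨1, Eventually.of_forall (fun N => ?_)⟩
  rw [one_mul]
  have h1 : ((fun q : ℕ × ℕ => q.2 - q.1) '' {q : ℕ × ℕ | q.1 ∈ D ∧ q.2 ∈ D ∧ q.1 < q.2 ∧
      q.2 < N ^ 2 ∧ q.2 < q.1 + N}).ncard ≤ N := by
    refine le_trans (Set.ncard_le_ncard (t := Set.Iio N) ?_ (Set.finite_Iio N)) ?_
    · rintro _ ⟨q, hq, rfl⟩
      obtain ⟨_, _, h3, _, h5⟩ := hq
      show q.2 - q.1 < N
      omega
    · rw [← Finset.coe_range, Set.ncard_coe_finset, card_range]
  have h2 : close D N ≤ N := by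
    unfold close
    rw [← Set.ncard_image_of_injOn (f := fun q : ℕ × ℕ => q.2 - q.1)]
    · exact h1
    · rintro ⟨a, b⟩ ⟨ha, hb, hab, _, _⟩ ⟨c, d⟩ ⟨hc, hd, hcd, _, _⟩ heq
      simp only at heq ha hb hc hd hab hcd
      rcases h a ha d hd b hb c hc (by omega) with h2 | h2
      · omega
      · rw [h2.1, h2.2]
  exact_mod_cast h2

/-! ### Erdős's argument -/

theorem sum_win_lt {D : Set ℕ} {N j : ℕ} (hN : 0 < N) (hj : j ≤ N) :
    ∑ i ∈ range j, (win D N i).card = (cut D (j * N)).card := by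
  classical
  have h1 : (cut D (j * N)).card
      = ∑ i ∈ range j, ((cut D (j * N)).filter (fun a => a / N = i)).card := by
    refine card_eq_sum_card_fiberwise (f := fun a => a / N) ?_
    intro a ha
    rw [mem_coe, mem_cut] at ha
    rw [mem_coe, mem_range]
    exact (Nat.div_lt_iff_lt_mul hN).2 ha.2
  rw [h1]
  refine Finset.sum_congr rfl (fun i hi => ?_)
  congr 1
  ext a
  unfold win
  rw [mem_filter, mem_filter, mem_cut, mem_cut]
  rw [mem_range] at hi
  constructor
  · rintro ⟨⟨h2, _⟩, h4⟩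
    refine ⟨⟨h2, ?_⟩, h4⟩
    exact (Nat.div_lt_iff_lt_mul hN).1 (by omega)
  · rintro ⟨⟨h2, h3⟩, h4⟩
    refine ⟨⟨h2, lt_of_lt_of_le h3 ?_⟩, h4⟩
    rw [sq]
    exact Nat.mul_le_mul_right N hj

theorem sqrt_step (j : ℕ) (hj : 1 ≤ j) :
    1 / (4 * (j : ℝ)) ≤ √(j : ℝ) * (1 / √(j : ℝ) - 1 / √((j : ℝ) + 1)) := by
  have hj0 : (0 : ℝ) < j := by exact_mod_cast hj
  have hs : 0 < √(j : ℝ) := Real.sqrt_pos.2 hj0
  have hs1 : 0 < √((j : ℝ) + 1) := Real.sqrt_pos.2 (by linarith)
  have h1 : √(j : ℝ) * (1 / √(j : ℝ) - 1 / √((j : ℝ) + 1)) = 1 - √(j : ℝ) / √((j : ℝ) + 1) := by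
    field_simp
  rw [h1, ← Real.sqrt_div hj0.le]
  have h2 : (j : ℝ) / (j + 1) = 1 - 1 / (j + 1) := by
    field_simp
    ring
  have h3 : √((j : ℝ) / (j + 1)) ≤ 1 - 1 / (2 * (j + 1)) := by
    refine Real.sqrt_le_iff.2 ⟨?_, ?_⟩
    · have : 1 / (2 * ((j : ℝ) + 1)) ≤ 1 := by
        rw [div_le_one (by positivity)]
        linarith
      linarith
    · rw [h2]
      have h4 : (1 - 1 / (2 * ((j : ℝ) + 1))) ^ 2 = 1 - 1 / (j + 1) + (1 / (2 * (j + 1))) ^ 2 := by
        field_simp
        ring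
      rw [h4]
      have := sq_nonneg (1 / (2 * ((j : ℝ) + 1)))
      linarith
  have h5 : 1 / (4 * (j : ℝ)) ≤ 1 / (2 * (j + 1)) := by
    have hj1 : (1 : ℝ) ≤ j := by exact_mod_cast hj
    exact one_div_le_one_div_of_le (by positivity) (by linarith)
  linarith

theorem erdos_ineq (N : ℕ) (a : ℕ → ℝ) (ha : ∀ i, 0 ≤ a i) {c : ℝ} (hc : 0 ≤ c)
    (h : ∀ j, 1 ≤ j → j ≤ N → c * √(j : ℝ) ≤ ∑ i ∈ range j, a i) :
    c / 4 * ∑ j ∈ range N, 1 / ((j : ℝ) + 1) ≤ ∑ i ∈ range N, a i * (1 / √((i : ℝ) + 1)) := by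
  classical
  set v : ℕ → ℝ := fun j => 1 / √((j : ℝ) + 1) - 1 / √((j : ℝ) + 2) with hv
  have hv0 : ∀ j, 0 ≤ v j := by
    intro j
    rw [hv]
    have h1 : √((j : ℝ) + 1) ≤ √((j : ℝ) + 2) := Real.sqrt_le_sqrt (by linarith)
    have h2 : 0 < √((j : ℝ) + 1) := Real.sqrt_pos.2 (by positivity)
    have := one_div_le_one_div_of_le h2 h1
    simp only
    linarith
  -- swap
  have hswap : ∑ j ∈ range N, v j * ∑ i ∈ range (j + 1), a i
      = ∑ i ∈ range N, a i * ∑ j ∈ Ico i N, v j := by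
    have h1 : ∀ j ∈ range N, v j * ∑ i ∈ range (j + 1), a i
        = ∑ i ∈ range N, if i ≤ j then v j * a i else 0 := by
      intro j hj
      rw [mem_range] at hj
      rw [← Finset.sum_filter, Finset.mul_sum]
      refine Finset.sum_congr ?_ (fun _ _ => rfl)
      ext i
      simp only [mem_range, mem_filter]
      omega
    rw [Finset.sum_congr rfl h1, Finset.sum_comm]
    refine Finset.sum_congr rfl (fun i hi => ?_)
    rw [← Finset.sum_filter, Finset.mul_sum]
    rw [mem_range] at hi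
    have h2 : (range N).filter (fun j => i ≤ j) = Ico i N := by
      ext j
      simp only [mem_range, mem_filter, mem_Ico]
      omega
    rw [h2]
    exact Finset.sum_congr rfl (fun j _ => mul_comm _ _)
  have htel : ∀ i ∈ range N, ∑ j ∈ Ico i N, v j ≤ 1 / √((i : ℝ) + 1) := by
    intro i hi
    rw [mem_range] at hi
    have h1 : ∑ j ∈ Ico i N, v j = 1 / √((i : ℝ) + 1) - 1 / √((N : ℝ) + 1) := by
      have h2 := Finset.sum_Ico_sub (f := fun j : ℕ => -(1 / √((j : ℝ) + 1))) (m := i) (n := N) hi.le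
      rw [neg_sub_neg] at h2
      rw [← h2]
      refine Finset.sum_congr rfl (fun j _ => ?_)
      rw [hv]
      simp only
      have h3 : ((j : ℝ) + 1 + 1) = (j : ℝ) + 2 := by ring
      push_cast
      rw [h3]
      ring
    rw [h1]
    have : 0 ≤ 1 / √((N : ℝ) + 1) := by positivity
    linarith
  calc c / 4 * ∑ j ∈ range N, 1 / ((j : ℝ) + 1)
      = ∑ j ∈ range N, c * (1 / (4 * ((j : ℝ) + 1))) := by
        rw [Finset.mul_sum]
        refine Finset.sum_congr rfl (fun j _ => ?_)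
        have hj1 : ((j : ℝ) + 1) ≠ 0 := by positivity
        field_simp
    _ ≤ ∑ j ∈ range N, v j * ∑ i ∈ range (j + 1), a i := by
        refine Finset.sum_le_sum (fun j hj => ?_)
        rw [mem_range] at hj
        have h1 := h (j + 1) (by omega) (by omega)
        have h2 := sqrt_step (j + 1) (by omega)
        push_cast at h1 h2
        have h3 : ((j : ℝ) + 1 + 1) = (j : ℝ) + 2 := by ring
        rw [h3] at h2
        calc c * (1 / (4 * ((j : ℝ) + 1)))
            ≤ c * (√((j : ℝ) + 1) * v j) := by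
              have : √((j : ℝ) + 1) * v j
                = √((j : ℝ) + 1) * (1 / √((j : ℝ) + 1) - 1 / √((j : ℝ) + 2)) := rfl
              rw [this]
              gcongr
          _ = v j * (c * √((j : ℝ) + 1)) := by ring
          _ ≤ _ := mul_le_mul_of_nonneg_left h1 (hv0 j)
    _ = ∑ i ∈ range N, a i * ∑ j ∈ Ico i N, v j := hswap
    _ ≤ ∑ i ∈ range N, a i * (1 / √((i : ℝ) + 1)) :=
        Finset.sum_le_sum (fun i hi => mul_le_mul_of_nonneg_left (htel i hi) (ha i))

theorem log_le_H (N : ℕ) : Real.log N ≤ ∑ i ∈ range N, 1 / ((i : ℝ) + 1) := by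
  rcases Nat.eq_zero_or_pos N with h0 | h0
  · rw [h0]
    simp
  have h1 := log_add_one_le_harmonic N
  have h2 : ((harmonic N : ℚ) : ℝ) = ∑ i ∈ range N, 1 / ((i : ℝ) + 1) := by
    unfold harmonic
    push_cast
    refine Finset.sum_congr rfl (fun i _ => ?_)
    rw [one_div]
  rw [h2] at h1
  refine le_trans ?_ h1
  refine Real.log_le_log (by exact_mod_cast h0) ?_
  push_cast
  linarith

/-- **Erdős's argument.** A set with few elements in the intervals of length `N` in mean square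
is not thick at all large `x`. -/
theorem not_thick {D : Set ℕ} (hD : FewInt D) {c : ℝ} (hc : 0 < c)
    (h : ∀ᶠ x : ℕ in atTop, c * √(x : ℝ) ≤ ((D ∩ Set.Iio x).ncard : ℝ)) : False := by
  classical
  obtain ⟨x0, hx0⟩ := eventually_atTop.1 h
  obtain ⟨N, hN1, hN2⟩ := ((hD (c ^ 2 / 32) (by positivity)).and
    (eventually_ge_atTop (max x0 2))).exists
  have hNx : x0 ≤ N := (le_max_left _ _).trans hN2
  have hN2' : 2 ≤ N := (le_max_right x0 2).trans hN2
  have hN0 : 0 < N := by omega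
  set H : ℝ := ∑ i ∈ range N, 1 / ((i : ℝ) + 1) with hHdef
  have hlog : 0 < Real.log N := Real.log_pos (by exact_mod_cast hN2')
  have hHlog : Real.log N ≤ H := log_le_H N
  have hHpos : 0 < H := lt_of_lt_of_le hlog hHlog
  have hNr : (0 : ℝ) < N := by exact_mod_cast hN0
  have h1 := erdos_ineq N (fun i => ((win D N i).card : ℝ)) (fun i => by positivity)
    (c := c * √(N : ℝ)) (by positivity) (by
      intro j hj1 hjN
      have h2 : ∑ i ∈ range j, ((win D N i).card : ℝ) = ((D ∩ Set.Iio (j * N)).ncard : ℝ) := by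
        rw [← card_cut, ← sum_win_lt hN0 hjN]
        push_cast
        rfl
      rw [h2]
      have h3 := hx0 (j * N) (hNx.trans (Nat.le_mul_of_pos_left N hj1))
      refine le_trans (le_of_eq ?_) h3
      push_cast
      rw [Real.sqrt_mul (by positivity)]
      ring)
  have h2 : (∑ i ∈ range N, ((win D N i).card : ℝ) * (1 / √((i : ℝ) + 1))) ^ 2 ≤
      (∑ i ∈ range N, ((win D N i).card : ℝ) ^ 2) * ∑ i ∈ range N, (1 / √((i : ℝ) + 1)) ^ 2 :=
    Finset.sum_mul_sq_le_sq_mul_sq _ _ _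
  have h3 : ∑ i ∈ range N, (1 / √((i : ℝ) + 1)) ^ 2 = H := by
    refine Finset.sum_congr rfl (fun i _ => ?_)
    rw [div_pow, one_pow, Real.sq_sqrt (by positivity)]
  have h4 : ∑ i ∈ range N, ((win D N i).card : ℝ) ^ 2 ≤ c ^ 2 / 32 * (N * Real.log N) := by
    refine le_trans (le_of_eq ?_) hN1
    unfold mom
    push_cast
    rfl
  rw [h3] at h2
  have h5 : (c * √(N : ℝ) / 4 * H) ^ 2 ≤ c ^ 2 / 32 * (N * H) * H := by
    calc (c * √(N : ℝ) / 4 * H) ^ 2
        ≤ (∑ i ∈ range N, ((win D N i).card : ℝ) * (1 / √((i : ℝ) + 1))) ^ 2 :=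
          pow_le_pow_left₀ (by positivity) h1 2
      _ ≤ (∑ i ∈ range N, ((win D N i).card : ℝ) ^ 2) * H := h2
      _ ≤ c ^ 2 / 32 * (N * H) * H := by
          refine mul_le_mul_of_nonneg_right (h4.trans ?_) hHpos.le
          gcongr
  have h6 : (c * √(N : ℝ) / 4 * H) ^ 2 = c ^ 2 / 16 * N * H ^ 2 := by
    have : (c * √(N : ℝ) / 4 * H) ^ 2 = c ^ 2 / 16 * (√(N : ℝ)) ^ 2 * H ^ 2 := by ring
    rw [this, Real.sq_sqrt hNr.le]
  rw [h6] at h5
  have h7 : 0 < c ^ 2 * N * H ^ 2 := by positivity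
  nlinarith

end Pool.Agent.Helper3.ETP3
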