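import Mathlib
import Pool.Agent.Helper3.ETP3.Basic

set_option autoImplicit false

/-!
E-T (MP_12a1af_nt), affirmative side: local conditions imply thinness.
-/

namespace Pool.Agent.Helper3.ETP3

open Finset Filter
open Pool.Agent.Helper5.ETA (S G ex mass energy coll_ge sum_G card_G_le G_mono)

/-- the number of residue classes modulo `q` which meet `D` -/
noncomputable def res (D : Set ℕ) (q : ℕ) : ℕ := ((fun a => a % q) '' D).ncard

theorem res_finite (D : Set ℕ) {q : ℕ} (hq : 0 < q) : ((fun a => a % q) '' D).Finite := by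
  refine (Set.finite_Iio q).subset ?_
  rintro _ ⟨a, _, rfl⟩
  exact Nat.mod_lt a hq

theorem res_le (D : Set ℕ) {q : ℕ} (hq : 0 < q) : res D q ≤ q := by
  unfold res
  refine le_trans (Set.ncard_le_ncard (t := Set.Iio q) ?_ (Set.finite_Iio q)) ?_
  · rintro _ ⟨a, _, rfl⟩
    exact Nat.mod_lt a hq
  · rw [← Finset.coe_range, Set.ncard_coe_finset, card_range]

theorem card_image_le_res {D : Set ℕ} {B : Finset ℕ} (hB : (B : Set ℕ) ⊆ D) {q : ℕ}
    (hq : 0 < q) : (B.image (fun a => a % q)).card ≤ res D q := by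
  unfold res
  rw [← Set.ncard_coe_finset]
  refine Set.ncard_le_ncard ?_ (res_finite D hq)
  rw [coe_image]
  exact Set.image_mono hB

/-! ### few residues for infinitely many moduli -/

theorem energy_moduli {D : Set ℕ} {C : ℝ} (hC : 0 < C)
    (h : ∃ᶠ q : ℕ in atTop, (res D q : ℝ) ≤ C * √(q : ℝ)) (K : ℕ) :
    ∃ M : ℕ, 0 < M ∧ ∀ B : Finset ℕ, (B : Set ℕ) ⊆ D →
      (K : ℝ) * ((B.card : ℝ) ^ 4 / (4 * C ^ 2)) ≤ en B M := by
  classical
  induction K with
  | zero =>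
    refine ⟨1, one_pos, fun B _ => ?_⟩
    rw [Nat.cast_zero, zero_mul]
    exact en_nonneg B 1
  | succ K ih =>
    obtain ⟨M, hM, hE⟩ := ih
    obtain ⟨q, hq1, hq2⟩ := (h.and_eventually
      (eventually_ge_atTop (⌈(2 * C * M) ^ 2⌉₊ + 1))).exists
    have hq : 0 < q := by omega
    have hqr : (0 : ℝ) < q := by exact_mod_cast hq
    have hsq : 2 * C * M ≤ √(q : ℝ) := by
      refine Real.le_sqrt_of_sq_le ?_
      have h1 := Nat.le_ceil ((2 * C * (M : ℝ)) ^ 2)
      have h2 : ((⌈(2 * C * (M : ℝ)) ^ 2⌉₊ : ℕ) : ℝ) ≤ q := by exact_mod_cast (by omega)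
      linarith
    refine ⟨M * q, Nat.mul_pos hM hq, fun B hB => ?_⟩
    have h1 := hE B hB
    have hsub1 : G M ⊆ G (M * q) := G_mono (Nat.mul_pos hM hq) (Dvd.intro _ rfl)
    have hsub2 : G q ⊆ G (M * q) := G_mono (Nat.mul_pos hM hq) (Dvd.intro_left _ rfl)
    set T := G q \ G M with hT
    have hdisj : Disjoint (G M) T := disjoint_sdiff
    have h2 : en B M + ∑ α ∈ T, e B α ^ 4 ≤ en B (M * q) := by
      unfold en
      rw [← Finset.sum_union hdisj]
      refine Finset.sum_le_sum_of_subset_of_nonneg ?_ (fun α _ _ => ?_)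
      · exact union_subset hsub1 (sdiff_subset.trans hsub2)
      · have := e_nonneg B α
        positivity
    have h3 := mass_ge B hq (card_image_le_res hB hq)
    have h4 : ∑ α ∈ G q, e B α ^ 2 ≤ ∑ α ∈ T, e B α ^ 2 + M * (B.card : ℝ) ^ 2 := by
      have h5 : ∑ α ∈ G q, e B α ^ 2 = ∑ α ∈ T, e B α ^ 2 + ∑ α ∈ G q ∩ G M, e B α ^ 2 := by
        rw [hT, add_comm]
        exact (Finset.sum_inter_add_sum_sdiff _ _ _).symm
      rw [h5]
      have h6 : ∑ α ∈ G q ∩ G M, e B α ^ 2 ≤ ∑ α ∈ G q ∩ G M, (B.card : ℝ) ^ 2 := by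
        refine Finset.sum_le_sum (fun α _ => ?_)
        have := e_nonneg B α
        have := e_le B α
        gcongr
      have h7 : ∑ α ∈ G q ∩ G M, (B.card : ℝ) ^ 2 ≤ M * (B.card : ℝ) ^ 2 := by
        rw [Finset.sum_const, nsmul_eq_mul]
        have h8 : ((G q ∩ G M).card : ℝ) ≤ M := by
          exact_mod_cast (card_le_card inter_subset_right).trans (card_G_le M)
        gcongr
      linarith
    set X : ℝ := ∑ α ∈ T, e B α ^ 2 with hX
    have hX0 : 0 ≤ X := Finset.sum_nonneg (fun α _ => by positivity)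
    set N : ℝ := (B.card : ℝ) with hN
    have hN0 : 0 ≤ N := by positivity
    -- `q N² ≤ C √q (X + M N²)`
    have h5 : (q : ℝ) * N ^ 2 ≤ C * √(q : ℝ) * (X + M * N ^ 2) := by
      refine h3.trans ?_
      have hnn : 0 ≤ ∑ α ∈ G q, e B α ^ 2 := Finset.sum_nonneg (fun α _ => by positivity)
      calc (res D q : ℝ) * ∑ α ∈ G q, e B α ^ 2
          ≤ C * √(q : ℝ) * ∑ α ∈ G q, e B α ^ 2 := by gcongr
        _ ≤ C * √(q : ℝ) * (X + M * N ^ 2) := by gcongr
    have hs0 : 0 < √(q : ℝ) := Real.sqrt_pos.2 hqr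
    have hsqq : √(q : ℝ) * √(q : ℝ) = q := Real.mul_self_sqrt hqr.le
    have h6 : √(q : ℝ) * N ^ 2 ≤ C * (X + M * N ^ 2) := by
      have h7 : √(q : ℝ) * (√(q : ℝ) * N ^ 2) ≤ √(q : ℝ) * (C * (X + M * N ^ 2)) := by
        calc √(q : ℝ) * (√(q : ℝ) * N ^ 2) = q * N ^ 2 := by rw [← mul_assoc, hsqq]
          _ ≤ _ := h5
          _ = _ := by ring
      exact le_of_mul_le_mul_left h7 hs0
    have h7 : √(q : ℝ) * N ^ 2 ≤ 2 * C * X := by
      have h8 : C * (M * N ^ 2) ≤ √(q : ℝ) / 2 * N ^ 2 := by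
        have : C * (M * N ^ 2) = (2 * C * M) / 2 * N ^ 2 := by ring
        rw [this]
        gcongr
      nlinarith
    have h8 : (q : ℝ) * N ^ 4 ≤ 4 * C ^ 2 * X ^ 2 := by
      have h9 : (√(q : ℝ) * N ^ 2) ^ 2 ≤ (2 * C * X) ^ 2 :=
        pow_le_pow_left₀ (by positivity) h7 2
      calc (q : ℝ) * N ^ 4 = (√(q : ℝ) * N ^ 2) ^ 2 := by
            rw [mul_pow, sq (√(q : ℝ)), hsqq]
            ring
        _ ≤ _ := h9
        _ = _ := by ring
    have h9 : X ^ 2 ≤ q * ∑ α ∈ T, e B α ^ 4 := by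
      refine cs B T ?_
      exact_mod_cast (card_le_card sdiff_subset).trans (card_G_le q)
    have h10 : N ^ 4 / (4 * C ^ 2) ≤ ∑ α ∈ T, e B α ^ 4 := by
      rw [div_le_iff₀ (by positivity)]
      have h11 : (q : ℝ) * N ^ 4 ≤ q * ((∑ α ∈ T, e B α ^ 4) * (4 * C ^ 2)) := by
        calc (q : ℝ) * N ^ 4 ≤ 4 * C ^ 2 * X ^ 2 := h8
          _ ≤ 4 * C ^ 2 * (q * ∑ α ∈ T, e B α ^ 4) := by gcongr
          _ = _ := by ring
      exact le_of_mul_le_mul_left h11 hqr
    push_cast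
    linarith

/-- **Kind 2**: `D` meets at most `C √q` residue classes modulo `q` for infinitely many `q`. -/
theorem thin_of_moduli {D : Set ℕ}
    (h : ∃ C : ℝ, ∃ᶠ q : ℕ in atTop, (res D q : ℝ) ≤ C * √(q : ℝ)) : Thin D := by
  obtain ⟨C, hC⟩ := h
  have hC' : ∃ᶠ q : ℕ in atTop, (res D q : ℝ) ≤ max C 1 * √(q : ℝ) := by
    refine hC.mono (fun q hq => hq.trans ?_)
    have := le_max_left C 1
    gcongr
  have hpos : 0 < max C 1 := lt_max_of_lt_right one_pos
  refine thin_of_energy (fun T => ?_)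
  obtain ⟨M, hM, hE⟩ := energy_moduli hpos hC' ⌈T * (4 * (max C 1) ^ 2)⌉₊
  refine ⟨M, hM, fun B hB => le_trans ?_ (hE B hB)⟩
  have h1 := Nat.le_ceil (T * (4 * (max C 1) ^ 2))
  have h2 : T ≤ (⌈T * (4 * (max C 1) ^ 2)⌉₊ : ℝ) / (4 * (max C 1) ^ 2) := by
    rw [le_div_iff₀ (by positivity)]
    exact h1
  calc T * (B.card : ℝ) ^ 4
      ≤ (⌈T * (4 * (max C 1) ^ 2)⌉₊ : ℝ) / (4 * (max C 1) ^ 2) * (B.card : ℝ) ^ 4 := by gcongr
    _ = _ := by ring

/-! ### primes -/

/-- the defect of `D` at `p` -/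
noncomputable def defect (D : Set ℕ) (p : ℕ) : ℝ := 1 - (res D p : ℝ) / p

theorem defect_nonneg (D : Set ℕ) {p : ℕ} (hp : 0 < p) : 0 ≤ defect D p := by
  unfold defect
  have h1 : (res D p : ℝ) ≤ p := by exact_mod_cast res_le D hp
  have h2 : (0 : ℝ) < p := by exact_mod_cast hp
  have h3 : (res D p : ℝ) / p ≤ 1 := by
    rw [div_le_one h2]
    exact h1
  linarith

theorem zero_mem_G {q : ℕ} (hq : 0 < q) : (0 : ℚ) ∈ G q := by
  unfold G
  rw [mem_image]
  exact ⟨0, mem_range.2 hq, by simp⟩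

theorem G_inter {p M : ℕ} (hp : p.Prime) (hM : 0 < M) (h : ¬ p ∣ M) {α : ℚ} (h1 : α ∈ G p)
    (h2 : α ∈ G M) : α = 0 := by
  unfold G at h1 h2
  rw [mem_image] at h1 h2
  obtain ⟨a, ha, rfl⟩ := h1
  obtain ⟨b, hb, hab⟩ := h2
  rw [mem_range] at ha hb
  have hp0 : (p : ℚ) ≠ 0 := by exact_mod_cast hp.pos.ne'
  have hM0 : (M : ℚ) ≠ 0 := by exact_mod_cast hM.ne'
  rw [div_eq_div_iff hM0 hp0] at hab
  have h3 : b * p = a * M := by exact_mod_cast hab
  have h4 : p ∣ a * M := ⟨b, by rw [← h3, mul_comm]⟩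
  rcases (Nat.Prime.dvd_mul hp).1 h4 with h5 | h5
  · have h6 : a = 0 := Nat.eq_zero_of_dvd_of_lt h5 ha
    rw [h6]
    simp
  · exact absurd h5 h

theorem energy_primes (D : Set ℕ) (P : Finset ℕ) (hP : ∀ p ∈ P, p.Prime) :
    ∃ M : ℕ, 0 < M ∧ (∀ q : ℕ, q.Prime → q ∣ M → q ∈ P) ∧
      ∀ B : Finset ℕ, (B : Set ℕ) ⊆ D →
      (∑ p ∈ P, defect D p ^ 2 / p) * (B.card : ℝ) ^ 4 ≤ en B M := by
  classical
  induction P using Finset.induction_on with
  | empty =>
    refine ⟨1, one_pos, fun q hq hd => absurd (Nat.dvd_one.1 hd) hq.one_lt.ne', fun B _ => ?_⟩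
    rw [Finset.sum_empty, zero_mul]
    exact en_nonneg B 1
  | insert p P hpP ih =>
    obtain ⟨M, hM, hMP, hE⟩ := ih (fun q hq => hP q (mem_insert_of_mem hq))
    have hp : p.Prime := hP p (mem_insert_self p P)
    have hpM : ¬ p ∣ M := fun h => hpP (hMP p hp h)
    have hpr : (0 : ℝ) < p := by exact_mod_cast hp.pos
    refine ⟨M * p, Nat.mul_pos hM hp.pos, ?_, fun B hB => ?_⟩
    · intro q hq hd
      rcases (Nat.Prime.dvd_mul hq).1 hd with h1 | h1
      · exact mem_insert_of_mem (hMP q hq h1)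
      · rw [(Nat.prime_dvd_prime_iff_eq hq hp).1 h1]
        exact mem_insert_self p P
    have h1 := hE B hB
    have hsub1 : G M ⊆ G (M * p) := G_mono (Nat.mul_pos hM hp.pos) (Dvd.intro _ rfl)
    have hsub2 : G p ⊆ G (M * p) := G_mono (Nat.mul_pos hM hp.pos) (Dvd.intro_left _ rfl)
    set T := (G p).erase 0 with hT
    have hdisj : Disjoint (G M) T := by
      rw [Finset.disjoint_left]
      intro α h2 h3
      rw [hT, mem_erase] at h3
      exact h3.1 (G_inter hp hM hpM h3.2 h2)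
    have h2 : en B M + ∑ α ∈ T, e B α ^ 4 ≤ en B (M * p) := by
      unfold en
      rw [← Finset.sum_union hdisj]
      refine Finset.sum_le_sum_of_subset_of_nonneg ?_ (fun α _ _ => ?_)
      · exact union_subset hsub1 ((erase_subset _ _).trans hsub2)
      · have := e_nonneg B α
        positivity
    have h3 := mass_ge B hp.pos (card_image_le_res hB hp.pos)
    have h4 : ∑ α ∈ G p, e B α ^ 2 = ∑ α ∈ T, e B α ^ 2 + e B 0 ^ 2 := by
      rw [hT]
      exact (Finset.sum_erase_add _ _ (zero_mem_G hp.pos)).symm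
    set X : ℝ := ∑ α ∈ T, e B α ^ 2 with hX
    have hX0 : 0 ≤ X := Finset.sum_nonneg (fun α _ => by positivity)
    set N : ℝ := (B.card : ℝ) with hN
    have h5 : e B 0 ^ 2 ≤ N ^ 2 := by
      have := e_nonneg B 0
      have := e_le B 0
      gcongr
    set d : ℝ := (res D p : ℝ) with hd
    have hd0 : 0 ≤ d := by positivity
    have hdp : d ≤ p := by
      rw [hd]
      exact_mod_cast res_le D hp.pos
    -- `p N² ≤ d (X + N²)`, so `(1 - d/p) N² ≤ X`
    have h6 : (p : ℝ) * N ^ 2 ≤ d * (X + N ^ 2) := by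
      rw [h4] at h3
      refine h3.trans ?_
      gcongr
    have h7 : defect D p * N ^ 2 ≤ X := by
      have h8 : (p : ℝ) * (defect D p * N ^ 2) ≤ p * X := by
        unfold defect
        have h9 : (p : ℝ) * ((1 - d / p) * N ^ 2) = p * N ^ 2 - d * N ^ 2 := by
          field_simp
        rw [← hd, h9]
        have h10 : d * X ≤ p * X := by gcongr
        linarith
      exact le_of_mul_le_mul_left h8 hpr
    have h8 : X ^ 2 ≤ p * ∑ α ∈ T, e B α ^ 4 := by
      refine cs B T ?_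
      exact_mod_cast (card_le_card (erase_subset _ _)).trans (card_G_le p)
    have h9 : defect D p ^ 2 / p * N ^ 4 ≤ ∑ α ∈ T, e B α ^ 4 := by
      have h10 : (defect D p * N ^ 2) ^ 2 ≤ X ^ 2 :=
        pow_le_pow_left₀ (mul_nonneg (defect_nonneg D hp.pos) (by positivity)) h7 2
      have h11 : defect D p ^ 2 / p * N ^ 4 = (defect D p * N ^ 2) ^ 2 / p := by ring
      rw [h11, div_le_iff₀ hpr]
      linarith
    rw [Finset.sum_insert hpP, add_mul]
    linarith

/-- **Kind 1**: the sum over the primes of `(1 - |D mod p| / p)² / p` is infinite. -/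
theorem thin_of_primes {D : Set ℕ}
    (h : ¬ Summable (fun p : Nat.Primes => defect D p ^ 2 / (p : ℕ))) : Thin D := by
  classical
  refine thin_of_energy (fun T => ?_)
  have h0 : ∀ p : Nat.Primes, 0 ≤ defect D p ^ 2 / (p : ℕ) := fun p => by positivity
  have h1 : ∃ P : Finset Nat.Primes, T ≤ ∑ p ∈ P, defect D p ^ 2 / (p : ℕ) := by
    by_contra hcon
    push Not at hcon
    exact h (summable_of_sum_le h0 (c := T) (fun P => (hcon P).le))
  obtain ⟨P, hP⟩ := h1
  obtain ⟨M, hM, _, hE⟩ := energy_primes D (P.image (fun p : Nat.Primes => (p : ℕ))) (by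
    intro p hp
    rw [mem_image] at hp
    obtain ⟨p', _, rfl⟩ := hp
    exact p'.2)
  refine ⟨M, hM, fun B hB => le_trans ?_ (hE B hB)⟩
  have hsum : ∑ p ∈ P.image (fun p : Nat.Primes => (p : ℕ)), defect D p ^ 2 / (p : ℝ)
      = ∑ p ∈ P, defect D p ^ 2 / ((p : ℕ) : ℝ) :=
    Finset.sum_image (fun a _ b _ hab => Nat.Primes.coe_nat_injective hab)
  rw [hsum]
  gcongr

end Pool.Agent.Helper3.ETP3
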