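import Mathlib
import Pool.Agent.Helper3.ETP3.Basic
import Pool.Agent.Helper3.ETP3.Local
import Pool.Agent.Helper3.ETP3.Diff

set_option autoImplicit false

/-!
E-T (MP_12a1af_nt), affirmative side: the covering theorem.
-/

namespace Pool.Agent.Helper3.ETP3

open Finset Filter

/-- **The covering theorem.** Let `A` be covered by finitely many sets, each of which is thin or has
few small differences. If `rep A` is bounded then `A` is not thick at all large `x`; if all the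
sets are thin then `|A ∩ [0, x)| = o(√x)`. -/
theorem main {ι : Type*} (s : Finset ι) (D : ι → Set ℕ)
    (hD : ∀ i ∈ s, Thin (D i) ∨ FewDiff (D i)) {A : Set ℕ} (hA : A ⊆ ⋃ i ∈ s, D i) (hb : Bdd A) :
    (∀ c : ℝ, 0 < c → ¬ ∀ᶠ x : ℕ in atTop, c * √(x : ℝ) ≤ ((A ∩ Set.Iio x).ncard : ℝ)) ∧
      ((∀ i ∈ s, Thin (D i)) → Small A) := by
  classical
  refine ⟨fun c hc h => ?_, fun hT => thin_biUnion s D hT A hA hb⟩
  set t := s.filter (fun i => Thin (D i)) with ht
  set U : Set ℕ := ⋃ i ∈ t, D i with hU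
  have h1 : Thin U := thin_biUnion t D (fun i hi => (mem_filter.1 hi).2)
  have h2 : Small (A ∩ U) := h1 _ Set.inter_subset_right (hb.mono Set.inter_subset_left)
  have h3 : FewInt (A \ U) := by
    refine FewInt.mono (E := ⋃ i ∈ s.filter (fun i => ¬ Thin (D i)), D i) ?_
      (fewInt_biUnion _ D (fun i hi => ?_))
    · intro a ha
      have h4 := hA ha.1
      rw [Set.mem_iUnion₂] at h4 ⊢
      obtain ⟨i, hi, h5⟩ := h4
      refine ⟨i, mem_filter.2 ⟨hi, fun h6 => ha.2 ?_⟩, h5⟩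
      rw [hU, Set.mem_iUnion₂]
      exact ⟨i, mem_filter.2 ⟨hi, h6⟩, h5⟩
    · rw [mem_filter] at hi
      exact ((hD i hi.1).resolve_left hi.2).fewInt
  refine not_thick h3 (c := c / 2) (by positivity) ?_
  filter_upwards [h, h2 (c / 2) (by positivity)] with x h4 h5
  have h6 : (A ∩ Set.Iio x).ncard ≤ ((A ∩ U) ∩ Set.Iio x).ncard + ((A \ U) ∩ Set.Iio x).ncard := by
    refine le_trans (Set.ncard_le_ncard ?_ ((fin_Iio _ x).union (fin_Iio _ x)))
      (Set.ncard_union_le _ _)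
    intro a ha
    by_cases h7 : a ∈ U
    · exact Or.inl ⟨⟨ha.1, h7⟩, ha.2⟩
    · exact Or.inr ⟨⟨ha.1, h7⟩, ha.2⟩
  have h7 : ((A ∩ Set.Iio x).ncard : ℝ)
      ≤ (((A ∩ U) ∩ Set.Iio x).ncard : ℝ) + (((A \ U) ∩ Set.Iio x).ncard : ℝ) := by
    exact_mod_cast h6
  linarith

end Pool.Agent.Helper3.ETP3
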